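import Pool.Agent.Y267.RS.Stm

/-!
# Project RS: Denjoy-Koksma for the Liouville rotation
-/

set_option autoImplicit false

open Set Filter Topology MeasureTheory

namespace Pool.Agent.Y779.RS

open Pool.Agent.Y267.RS

theorem dist_le {g : T1 → ℝ} {V : ℝ} (hV : 0 ≤ V) (hB : BVc g V) (y : ℝ) {s s' : ℝ}
    (hs : s ∈ Icc y (y + 1)) (hs' : s' ∈ Icc y (y + 1)) : |g (s : T1) - g (s' : T1)| ≤ V := by
  have h := (eVariationOn.edist_le (fun s : ℝ => g (s : T1)) hs hs').trans (hB y)
  rw [edist_dist, Real.dist_eq] at h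
  exact (ENNReal.ofReal_le_ofReal_iff hV).1 h

theorem dist_le' {g : T1 → ℝ} {V : ℝ} (hV : 0 ≤ V) (hB : BVc g V) (z w : T1) :
    |g z - g w| ≤ V := by
  obtain ⟨y, rfl⟩ := QuotientAddGroup.mk_surjective w
  obtain ⟨s, hs, rfl⟩ : ∃ s ∈ Ico y (y + 1), ((s : ℝ) : T1) = z := by
    have := (AddCircle.coe_image_Ico_eq (1 : ℝ) y)
    have hz : z ∈ ((↑) : ℝ → T1) '' Ico y (y + 1) := by rw [this]; exact mem_univ _
    exact hz
  exact dist_le hV hB y ⟨hs.1, hs.2.le⟩ ⟨le_rfl, by linarith⟩

theorem intble {g : T1 → ℝ} {V : ℝ} (hV : 0 ≤ V) (hg : Measurable g) (hB : BVc g V) (a b : ℝ) :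
    IntervalIntegrable (fun s : ℝ => g (s : T1)) volume a b := by
  refine (intervalIntegrable_const (c := |g 0| + V)).mono_fun' ?_ ?_
  · exact (hg.comp AddCircle.measurable_mk').aestronglyMeasurable
  · filter_upwards with s
    rw [Real.norm_eq_abs]
    have := dist_le' hV hB (s : T1) 0
    have h2 : |g (s : T1)| = |g 0 + (g (s : T1) - g 0)| := by congr 1; ring
    rw [h2]
    exact (abs_add_le _ _).trans (by linarith)

/-- one interval -/
theorem piece {g : T1 → ℝ} {V : ℝ} (hV : 0 ≤ V) (hg : Measurable g) (hB : BVc g V) {q : ℝ}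
    (hq : 0 < q) {a b z : ℝ} (hab : b - a = 1 / q) (hz : z ∈ Icc a b)
    (hfin : eVariationOn (fun s : ℝ => g (s : T1)) (Icc a b) ≠ ⊤) :
    |g (z : T1) - q * ∫ s in a..b, g (s : T1)| ≤
      (eVariationOn (fun s : ℝ => g (s : T1)) (Icc a b)).toReal := by
  have hab' : a ≤ b := by
    have : 0 < 1 / q := by positivity
    linarith
  set C := (eVariationOn (fun s : ℝ => g (s : T1)) (Icc a b)).toReal with hC
  have h1 : g (z : T1) - q * ∫ s in a..b, g (s : T1) = q * ∫ s in a..b, (g (z : T1) - g (s : T1)) := by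
    rw [intervalIntegral.integral_sub intervalIntegrable_const (intble hV hg hB a b),
      intervalIntegral.integral_const, hab, mul_sub, smul_eq_mul]
    field_simp
  rw [h1, abs_mul, abs_of_pos hq]
  have h2 : ‖∫ s in a..b, (g (z : T1) - g (s : T1))‖ ≤ C * |b - a| := by
    apply intervalIntegral.norm_integral_le_of_norm_le_const
    intro s hs
    rw [uIoc_of_le hab'] at hs
    have h3 := eVariationOn.edist_le (fun s : ℝ => g (s : T1)) hz (Ioc_subset_Icc_self hs)
    rw [edist_dist, Real.dist_eq] at h3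
    rw [Real.norm_eq_abs]
    rw [ENNReal.ofReal_le_iff_le_toReal hfin] at h3
    exact h3
  rw [Real.norm_eq_abs, hab] at h2
  calc q * |∫ s in a..b, (g (z : T1) - g (s : T1))| ≤ q * (C * |1 / q|) := by gcongr
    _ = C := by
      rw [abs_of_pos (by positivity)]
      field_simp

theorem coe_nat_zero (n : ℕ) : (((n : ℝ)) : T1) = 0 := by
  rw [AddCircle.coe_eq_zero_iff]
  exact ⟨n, by simp⟩

/-- the Denjoy-Koksma inequality -/
theorem denjoy {g : T1 → ℝ} {V : ℝ} (hV : 0 ≤ V) (hg : Measurable g) (hB : BVc g V) {q P : ℕ}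
    (hq : 0 < q) (hP : P.Coprime q) {α e : ℝ} (hα : (q : ℝ) * α = P + e) (he0 : 0 ≤ e)
    (he1 : (q : ℝ) * e ≤ 1) (y : ℝ) :
    |∑ t ∈ Finset.range q, g ((y + t * α : ℝ) : T1) - (q : ℝ) * ∫ z : T1, g z| ≤ V := by
  have hqR : (0 : ℝ) < q := by exact_mod_cast hq
  let I : ℕ → ℝ := fun i => y + i / q
  have hI : Monotone I := by
    intro i j hij
    have : (i : ℝ) ≤ j := by exact_mod_cast hij
    simp only [I]
    gcongr
  have hI0 : I 0 = y := by simp [I]
  have hIq : I q = y + 1 := by simp only [I]; field_simp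
  let E : ℕ → ENNReal := fun i => eVariationOn (fun s : ℝ => g (s : T1)) (Icc (I i) (I (i + 1)))
  have hsum : ∑ i ∈ Finset.range q, E i =
      eVariationOn (fun s : ℝ => g (s : T1)) (Icc y (y + 1)) := by
    have := eVariationOn.sum' (fun s : ℝ => g (s : T1)) hI (n := q)
    rw [hI0, hIq] at this
    exact this
  have hle : ∑ i ∈ Finset.range q, E i ≤ ENNReal.ofReal V := by rw [hsum]; exact hB y
  have hfin : ∀ i ∈ Finset.range q, E i ≠ ⊤ := by
    intro i hi
    exact ne_top_of_le_ne_top ENNReal.ofReal_ne_top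
      ((Finset.single_le_sum (f := E) (fun _ _ => bot_le) hi).trans hle)
  have hVsum : ∑ i ∈ Finset.range q, (E i).toReal ≤ V := by
    rw [← ENNReal.toReal_sum hfin]
    exact ENNReal.toReal_le_of_le_ofReal hV hle
  -- the integral
  have hint : ∫ z : T1, g z = ∑ i ∈ Finset.range q, ∫ s in (I i)..(I (i + 1)), g (s : T1) := by
    rw [intervalIntegral.sum_integral_adjacent_intervals (fun k _ => intble hV hg hB _ _), hI0, hIq]
    exact (AddCircle.intervalIntegral_preimage 1 y g).symm
  -- the permutation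
  let σ : ℕ → ℕ := fun t => (t * P) % q
  have hσ : ∀ t ∈ Finset.range q, σ t ∈ Finset.range q := fun t _ =>
    Finset.mem_range.2 (Nat.mod_lt _ hq)
  have hinj : Set.InjOn σ (Finset.range q : Set ℕ) := by
    intro s hs t ht hst
    rw [Finset.mem_coe, Finset.mem_range] at hs ht
    have h1 : s * P ≡ t * P [MOD q] := hst
    have h2 : s ≡ t [MOD q] := Nat.ModEq.cancel_right_of_coprime (by rwa [Nat.coprime_comm] at hP) h1
    exact Nat.ModEq.eq_of_lt_of_lt h2 hs ht
  have hsurj : Set.SurjOn σ (Finset.range q : Set ℕ) (Finset.range q : Set ℕ) :=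
    Finset.surjOn_of_injOn_of_card_le σ hσ hinj le_rfl
  have hre : ∀ f : ℕ → ℝ, ∑ t ∈ Finset.range q, f (σ t) = ∑ i ∈ Finset.range q, f i :=
    fun f => Finset.sum_nbij σ hσ hinj hsurj (fun _ _ => rfl)
  rw [hint, Finset.mul_sum, ← hre (fun i => (q : ℝ) * ∫ s in (I i)..(I (i + 1)), g (s : T1)),
    ← Finset.sum_sub_distrib]
  refine (Finset.abs_sum_le_sum_abs _ _).trans (le_trans ?_ hVsum)
  rw [← hre (fun i => (E i).toReal)]
  apply Finset.sum_le_sum
  intro t ht
  have htq : (t : ℝ) ≤ q := by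
    have := Finset.mem_range.1 ht
    exact_mod_cast this.le
  -- the point
  have hpt : ((y + t * α : ℝ) : T1) = ((y + (σ t : ℝ) / q + t * e / q : ℝ) : T1) := by
    have h1 : (t : ℝ) * P = q * ((t * P / q : ℕ) : ℝ) + (σ t : ℝ) := by
      have := Nat.div_add_mod (t * P) q
      have h2 : ((q * (t * P / q) + (t * P) % q : ℕ) : ℝ) = ((t * P : ℕ) : ℝ) := by rw [this]
      push_cast at h2
      simp only [σ]
      linarith
    have h2 : y + t * α = (y + (σ t : ℝ) / q + t * e / q) + ((t * P / q : ℕ) : ℝ) := by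
      have h3 : α = (P + e) / q := by rw [← hα]; field_simp
      rw [h3]
      field_simp
      linarith
    rw [h2, AddCircle.coe_add, coe_nat_zero, add_zero]
  rw [hpt]
  apply piece hV hg hB hqR _ _ (hfin _ (hσ t ht))
  · simp only [I]
    push_cast
    field_simp
    ring
  · simp only [I]
    constructor
    · have : 0 ≤ t * e / q := by positivity
      linarith
    · have h1 : t * e / q ≤ 1 / q := by
        gcongr
        calc t * e ≤ q * e := by gcongr
          _ ≤ 1 := he1
      push_cast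
      rw [add_div]
      linarith

/-- the rational approximation of the rotation number -/
theorem approx (h1 : A1Stm) (j : ℕ) : ∃ P : ℕ, P.Coprime (Q j) ∧ (Q j : ℝ) * al = P + th j := by
  refine ⟨∑ i ∈ Finset.range (j + 1), 2 ^ (10 * 3 ^ j - 10 * 3 ^ i), ?_, ?_⟩
  · have hodd : Odd (∑ i ∈ Finset.range (j + 1), 2 ^ (10 * 3 ^ j - 10 * 3 ^ i)) := by
      rw [Finset.sum_range_succ, Nat.sub_self, pow_zero]
      apply Even.add_one
      apply Finset.even_sum
      intro i hi
      have hi' := Finset.mem_range.1 hi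
      have : 3 ^ i < 3 ^ j := Nat.pow_lt_pow_right (by norm_num) hi'
      exact (even_two).pow_of_ne_zero (by omega)
    rw [Q]
    exact Nat.Coprime.pow_right _ (Nat.coprime_two_right.2 hodd)
  · have hs := h1.1
    have h2 := hs.sum_add_tsum_nat_add (j + 1)
    rw [al, ← h2, mul_add, th]
    congr 1
    · rw [Finset.mul_sum]
      push_cast
      apply Finset.sum_congr rfl
      intro i hi
      have hi' : i ≤ j := by
        have := Finset.mem_range.1 hi
        omega
      have hle : 10 * 3 ^ i ≤ 10 * 3 ^ j := by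
        have : 3 ^ i ≤ 3 ^ j := Nat.pow_le_pow_right (by norm_num) hi'
        omega
      rw [Q, Q]
      push_cast
      rw [pow_sub₀ (2 : ℝ) (by norm_num) hle]
      ring
    · congr 1
      apply tsum_congr
      intro i
      rw [show i + (j + 1) = j + 1 + i by ring]

theorem Q_pos (j : ℕ) : 0 < Q j := by unfold Q; positivity

theorem Q_large (j : ℕ) : 2 ≤ Q j := by
  unfold Q
  calc 2 = 2 ^ 1 := rfl
    _ ≤ 2 ^ (10 * 3 ^ j) := Nat.pow_le_pow_right (by norm_num) (by
        have : 0 < 3 ^ j := by positivity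
        omega)

theorem b1 (h1 : A1Stm) (h2 : A2Stm) : B1Stm := by
  intro g V hV hg hB j x
  obtain ⟨P, hP, hα⟩ := approx h1 j
  obtain ⟨y, rfl⟩ := QuotientAddGroup.mk_surjective x
  have hQ : (2 : ℝ) ≤ Q j := by exact_mod_cast Q_large j
  obtain ⟨h3, h4⟩ := h2 j
  have he0 : 0 ≤ th j := le_trans (by positivity) h3
  have he1 : (Q j : ℝ) * th j ≤ 1 := by
    calc (Q j : ℝ) * th j ≤ (Q j : ℝ) * (1.001 / (Q j : ℝ) ^ 2) := by gcongr
      _ = 1.001 / (Q j : ℝ) := by field_simp
      _ ≤ 1 := by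
        rw [div_le_one (by linarith)]
        linarith
  have := denjoy hV hg hB (Q_pos j) hP hα he0 he1 y
  convert! this using 3

theorem rot_rot (x : T1) (s t : ℕ) : rot (rot x s) t = rot x (s + t) := by
  unfold rot
  rw [add_assoc, ← AddCircle.coe_add]
  congr 2
  push_cast
  ring

theorem b2 (h1 : A1Stm) (h2 : A2Stm) : B2Stm := by
  intro g V hV hg hB ε hε
  have hb := b1 h1 h2 g V hV hg hB
  set μ := ∫ z : T1, g z with hμ
  -- the oscillation of `g` around its mean
  have hosc : ∀ z : T1, |g z - μ| ≤ V := by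
    intro z
    obtain ⟨y, rfl⟩ := QuotientAddGroup.mk_surjective z
    have e1 : g (y : T1) - μ = ∫ s in y..(y + 1), (g (y : T1) - g (s : T1)) := by
      rw [intervalIntegral.integral_sub intervalIntegrable_const (intble hV hg hB _ _),
        intervalIntegral.integral_const, hμ]
      rw [AddCircle.intervalIntegral_preimage 1 y g]
      simp
    have e2 : ‖∫ s in y..(y + 1), (g (y : T1) - g (s : T1))‖ ≤ V * |y + 1 - y| := by
      apply intervalIntegral.norm_integral_le_of_norm_le_const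
      intro s _
      exact dist_le' hV hB _ _
    rw [Real.norm_eq_abs, add_sub_cancel_left, abs_one, mul_one] at e2
    have e3 : g ((y : ℝ) : T1) - μ = g (QuotientAddGroup.mk y : T1) - μ := rfl
    rw [← e3, e1]
    exact e2
  -- choose `J`
  obtain ⟨J, hJ⟩ : ∃ J : ℕ, V ≤ ε / 2 * (Q J : ℝ) := by
    obtain ⟨N, hN⟩ := exists_nat_ge (V / (ε / 2))
    refine ⟨N, ?_⟩
    have hNQ : (N : ℝ) ≤ Q N := by
      have : N ≤ Q N := by
        unfold Q
        have h3 : N < 3 ^ N := Nat.lt_pow_self (by norm_num)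
        have h4 : 10 * 3 ^ N < 2 ^ (10 * 3 ^ N) := Nat.lt_pow_self (by norm_num)
        omega
      exact_mod_cast this
    rw [div_le_iff₀ (by positivity)] at hN
    calc V ≤ N * (ε / 2) := hN
      _ ≤ Q N * (ε / 2) := by gcongr
      _ = ε / 2 * Q N := by ring
  set q := Q J with hq
  have hq0 : 0 < q := Q_pos J
  have hqR : (0 : ℝ) < q := by exact_mod_cast hq0
  -- blocks
  have hblock : ∀ (a : ℕ) (x : T1), |∑ t ∈ Finset.range (a * q), (g (rot x t) - μ)| ≤ a * V := by
    intro a
    induction a with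
    | zero => intro x; simp
    | succ a ih =>
      intro x
      rw [Nat.succ_mul, Finset.sum_range_add]
      have e1 : ∑ t ∈ Finset.range q, (g (rot x (a * q + t)) - μ) =
          ∑ t ∈ Finset.range q, g (rot (rot x (a * q)) t) - (q : ℝ) * μ := by
        rw [Finset.sum_sub_distrib, Finset.sum_const, Finset.card_range, nsmul_eq_mul]
        congr 1
        apply Finset.sum_congr rfl
        intro t _
        rw [rot_rot]
      rw [e1]
      refine (abs_add_le _ _).trans ?_
      have := hb J (rot x (a * q))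
      have h3 := ih x
      push_cast
      linarith
  obtain ⟨n₀, hn₀⟩ := exists_nat_ge (q * V / (ε / 2))
  refine ⟨n₀, fun n hn x => ?_⟩
  have hnR : (n₀ : ℝ) ≤ n := by exact_mod_cast hn
  have e1 : ∑ t ∈ Finset.range n, g (rot x t) - (n : ℝ) * μ =
      ∑ t ∈ Finset.range n, (g (rot x t) - μ) := by
    rw [Finset.sum_sub_distrib, Finset.sum_const, Finset.card_range, nsmul_eq_mul]
  rw [e1]
  have e2 : n = (n / q) * q + n % q := by
    have := Nat.div_add_mod n q
    rw [mul_comm] at this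
    exact this.symm
  have e3 : ∑ t ∈ Finset.range n, (g (rot x t) - μ) =
      ∑ t ∈ Finset.range ((n / q) * q), (g (rot x t) - μ) +
        ∑ t ∈ Finset.range (n % q), (g (rot x ((n / q) * q + t)) - μ) := by
    conv_lhs => rw [e2]
    rw [Finset.sum_range_add]
  rw [e3]
  refine (abs_add_le _ _).trans ?_
  have b1' := hblock (n / q) x
  have b2' : |∑ t ∈ Finset.range (n % q), (g (rot x ((n / q) * q + t)) - μ)| ≤ q * V := by
    refine (Finset.abs_sum_le_sum_abs _ _).trans ?_
    calc ∑ t ∈ Finset.range (n % q), |g (rot x ((n / q) * q + t)) - μ|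
        ≤ ∑ t ∈ Finset.range (n % q), V := Finset.sum_le_sum fun t _ => hosc _
      _ = ((n % q : ℕ) : ℝ) * V := by rw [Finset.sum_const, Finset.card_range, nsmul_eq_mul]
      _ ≤ q * V := by
        have : ((n % q : ℕ) : ℝ) ≤ q := by exact_mod_cast (Nat.mod_lt n hq0).le
        gcongr
  have b3 : ((n / q : ℕ) : ℝ) * V ≤ ε / 2 * n := by
    have h3 : ((n / q : ℕ) : ℝ) * q ≤ n := by exact_mod_cast Nat.div_mul_le_self n q
    calc ((n / q : ℕ) : ℝ) * V ≤ ((n / q : ℕ) : ℝ) * (ε / 2 * q) := by gcongr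
      _ = ε / 2 * (((n / q : ℕ) : ℝ) * q) := by ring
      _ ≤ ε / 2 * n := by gcongr
  have b4 : q * V ≤ ε / 2 * n := by
    rw [div_le_iff₀ (by positivity)] at hn₀
    calc q * V ≤ n₀ * (ε / 2) := hn₀
      _ ≤ n * (ε / 2) := by gcongr
      _ = ε / 2 * n := by ring
  linarith

end Pool.Agent.Y779.RS
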